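import Pool.Agent.L7h31.CP.Stm

/-!
# Project CP, part MAP
-/

set_option autoImplicit false

namespace Pool.Agent.L7h36.CP

open Pool.Agent.L7h31.CE Pool.Agent.L7h31.CP

theorem s_MAP (hP : Pool.Agent.L7h31.CP.S_PTS) (hD : Pool.Agent.L7h31.CE.S_DST) :
    Pool.Agent.L7h31.CP.S_MAP := by
  intro r i j ν μ g σ s b δ β hs hδ hg hgt
  have key : ∀ (κ t : ℝ), 0 ≤ κ → κ ≤ 1 → 0 ≤ t → t ≤ 1 →
      ((j : ℝ) ≤ δ * (i + κ) + β ∧ δ * (i + κ) + β ≤ j + 1) ∧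
      ∀ a, (μ (σ a) : ℝ) ≤ s a * (ν a + κ * (vz r i a : ℝ) + t) + b (σ a) -
          (δ * (i + κ) + β - j) * (vz r j (σ a) : ℝ) ∧
        s a * (ν a + κ * (vz r i a : ℝ) + t) + b (σ a) -
          (δ * (i + κ) + β - j) * (vz r j (σ a) : ℝ) ≤ μ (σ a) + 1 := by
    intro κ t h0 h1 h2 h3
    have hp := hP r i ν κ (fun _ => t) h0 h1 (fun _ => ⟨h2, h3⟩)
    set p : E r := mk (fun a => (ν a : ℝ) + κ * (vz r i a : ℝ) + t) ((i : ℝ) + κ) with hpd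
    have hgp : g p ∈ tile j μ := by
      rw [← hgt]
      exact ⟨p, hp, rfl⟩
    obtain ⟨q1, q2, q3⟩ := hgp
    have d1 := ((hD r).1 (fun a => (ν a : ℝ) + κ * (vz r i a : ℝ) + t) ((i : ℝ) + κ)).1
    have d2 := ((hD r).1 (fun a => (ν a : ℝ) + κ * (vz r i a : ℝ) + t) ((i : ℝ) + κ)).2
    rw [← hpd] at d1 d2
    have e1 := (hg p).1
    have e2 := (hg p).2
    rw [d2] at e2
    rw [e2] at q1 q2
    refine ⟨⟨q1, q2⟩, fun a => ?_⟩
    have q := q3 (σ a)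
    unfold lc at q
    rw [e1 a, e2, d1 a] at q
    exact q
  obtain ⟨⟨a1, a2⟩, a3⟩ := key 0 0 le_rfl zero_le_one le_rfl zero_le_one
  obtain ⟨⟨b1, b2⟩, b3⟩ := key 1 0 zero_le_one le_rfl le_rfl zero_le_one
  obtain ⟨⟨c1, c2⟩, c3⟩ := key 0 1 le_rfl zero_le_one zero_le_one le_rfl
  obtain ⟨⟨d1, d2⟩, d3⟩ := key 1 1 zero_le_one le_rfl zero_le_one le_rfl
  rcases hδ with hδ | hδ
  · subst hδ
    have hβ : β = j - i := by linarith
    refine ⟨fun _ => hβ, fun h => absurd h (by norm_num), fun a => ?_, fun a => ?_⟩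
    · obtain ⟨p1, p2⟩ := a3 a
      obtain ⟨p3, p4⟩ := b3 a
      obtain ⟨p5, p6⟩ := c3 a
      obtain ⟨p7, p8⟩ := d3 a
      rw [hβ] at p1 p2 p3 p4 p5 p6 p7 p8
      rcases hs a with h | h <;> rw [h] at p1 p2 p3 p4 p5 p6 p7 p8 ⊢ <;> linarith
    · obtain ⟨p1, p2⟩ := a3 a
      obtain ⟨p5, p6⟩ := c3 a
      rw [hβ] at p1 p2 p5 p6
      rcases hs a with h | h <;> rw [h] at p1 p2 p5 p6
      · refine ⟨μ (σ a) - ν a, ?_⟩
        push_cast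
        linarith
      · refine ⟨μ (σ a) + 1 + ν a, ?_⟩
        push_cast
        linarith
  · subst hδ
    have hβ : β = i + j + 1 := by linarith
    refine ⟨fun h => absurd h (by norm_num), fun _ => hβ, fun a => ?_, fun a => ?_⟩
    · obtain ⟨p1, p2⟩ := a3 a
      obtain ⟨p3, p4⟩ := b3 a
      obtain ⟨p5, p6⟩ := c3 a
      obtain ⟨p7, p8⟩ := d3 a
      rw [hβ] at p1 p2 p3 p4 p5 p6 p7 p8
      rcases hs a with h | h <;> rw [h] at p1 p2 p3 p4 p5 p6 p7 p8 ⊢ <;> linarith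
    · obtain ⟨p1, p2⟩ := b3 a
      obtain ⟨p5, p6⟩ := d3 a
      rw [hβ] at p1 p2 p5 p6
      rcases hs a with h | h <;> rw [h] at p1 p2 p5 p6
      · refine ⟨μ (σ a) - ν a - vz r i a, ?_⟩
        push_cast
        linarith
      · refine ⟨μ (σ a) + 1 + ν a + vz r i a, ?_⟩
        push_cast
        linarith

end Pool.Agent.L7h36.CP
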